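import Pool.Agent.Lib.MP_570bef_ntLV.FCore
import Pool.Agent.Lib.MP_570bef_ntLM.Defs
import Pool.Agent.Lib.MP_570bef_ntV.OF.Off

/-!
# LV stream, glue (G2): the admissible steps have small off diagonal sums

For an admissible triple `(n, m, l)` every `D` in the product set of the blocks of `J ⊆ [n - m, n)`
satisfies `2 D L ≤ Y` and `NS k D Y L` with `Y = (2 P)^(n - m)`, `L = P^(2 l + κ₁)`.
-/

set_option autoImplicit false

namespace Pool.Agent.Lib.MP_570bef_ntLG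

open Finset
open Pool.Agent.Lib.MP_570bef_ntLV (Blk PS PS_empty PS_insert PS_coprime PS_le PS_prime_dvd
  PS_singleton)
open Pool.Agent.Lib.MP_570bef_ntV.OF (NS om off1)
open scoped Pointwise

/-- the second sufficient condition for `NS` (denominators up to `Y ^ R`) with saving `Y ^ τ` -/
def Off2 (k R : ℕ) (τ : ℝ) : Prop :=
  ∃ C : ℝ, 0 < C ∧ ∀ (E Y : ℕ) (L : ℝ), Pool.Agent.Lib.MP_570bef_ntV.OF.Adm k E → 1 ≤ Y → 1 ≤ L →
    (E : ℝ) ^ (8 * R) ≤ Y → (E : ℝ) ^ k ≤ (Y : ℝ) ^ R → C * (k : ℝ) ^ om E * L ≤ (Y : ℝ) ^ τ →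
    NS k E Y L

/-- `Off2` for all `2 ≤ R ≤ k` with savings at least `10 ^ (-6) / R ^ 4` -/
def High (k : ℕ) : Prop :=
  ∀ R : ℕ, 2 ≤ R → R ≤ k → ∃ τ : ℝ, 1 / (10 ^ 6 * (R : ℝ) ^ 4) ≤ τ ∧ Off2 k R τ

variable {PP : ℕ → Finset ℕ} {P : ℕ}

theorem PS_sqf (hB : Blk PP P) (J : Finset ℕ) :
    ∀ x ∈ PS PP J, Squarefree x ∧ om x ≤ J.card := by
  classical
  induction J using Finset.induction_on with
  | empty =>
    intro x hx
    rw [PS_empty, mem_singleton] at hx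
    subst hx
    exact ⟨squarefree_one, by simp [om]⟩
  | insert i J hi ih =>
    intro x hx
    rw [PS_insert hi, mem_mul] at hx
    obtain ⟨p, hp, y, hy, rfl⟩ := hx
    obtain ⟨h1, h2⟩ := ih y hy
    have hpp := hB.prime i p hp
    have hcop : Nat.Coprime p y := by
      refine PS_coprime hB (J := {i}) (J' := J) (by simpa using hi) ?_ hy
      rw [PS_singleton]
      exact hp
    refine ⟨(Nat.squarefree_mul hcop).2 ⟨hpp.squarefree, h1⟩, ?_⟩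
    unfold om at h2 ⊢
    have hy0 : y ≠ 0 := h1.ne_zero
    rw [Nat.primeFactors_mul hpp.ne_zero hy0, card_insert_of_notMem hi]
    refine (card_union_le _ _).trans ?_
    rw [hpp.primeFactors, card_singleton]
    omega

theorem PS_adm (hB : Blk PP P) {k : ℕ} (hkP : k ≤ P) (J : Finset ℕ) :
    ∀ x ∈ PS PP J, Pool.Agent.Lib.MP_570bef_ntV.OF.Adm k x := by
  intro x hx
  refine ⟨(PS_sqf hB J x hx).1, fun p hp hpx => ?_⟩
  obtain ⟨i, _, hi⟩ := (PS_prime_dvd hB J x hx).2 p hp hpx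
  exact lt_of_le_of_lt hkP (hB.low i p hi)

/-- real exponent arithmetic of the first alternative -/
theorem arith1 {k m n : ℕ} {l κ κ₁ : ℝ} (hk : 1 ≤ k) (hκ : 2 * (κ₁ + 1) ≤ κ)
    (h : ((k : ℝ) + 2) * m + 4 * l + κ ≤ 2 * ((n : ℝ) - m)) :
    1 + m + (2 * l + κ₁) ≤ (n : ℝ) - m ∧
      1 + m * ((k : ℝ) / 2 + 1) + (2 * l + κ₁) ≤ (n : ℝ) - m := by
  have hk1 : (1 : ℝ) ≤ k := by exact_mod_cast hk
  have hm : (0 : ℝ) ≤ m := Nat.cast_nonneg _
  constructor <;> nlinarith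

theorem pow_om_le {k M : ℕ} (hk : 1 ≤ k) {w : ℕ} (hw : w ≤ M) : (k : ℝ) ^ w ≤ (k : ℝ) ^ M :=
  pow_le_pow_right₀ (by exact_mod_cast hk) hw

/-- **(G2)** -/
theorem glue_ns (k M : ℕ) (hk : 3 ≤ k) (κ₁ κ : ℝ) (h1 : 0 ≤ κ₁) (h2 : 2 * (κ₁ + 1) ≤ κ)
    (H : High k) :
    ∃ P0 : ℕ, ∀ P ≥ P0, ∀ PP : ℕ → Finset ℕ, Blk PP P → ∀ (n m : ℕ) (l : ℝ), n ≤ M → 1 ≤ m →
      m < n → 0 ≤ l → Pool.Agent.Lib.MP_570bef_ntLM.Adm k κ n m l →
      ∀ J ⊆ Ico (n - m) n, ∀ D ∈ PS PP J,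
        Pool.Agent.Lib.MP_570bef_ntV.OF.Adm k D ∧ om D ≤ M ∧
        2 * (D : ℝ) * (P : ℝ) ^ (2 * l + κ₁) ≤ (((2 * P) ^ (n - m) : ℕ) : ℝ) ∧
        NS k D ((2 * P) ^ (n - m)) ((P : ℝ) ^ (2 * l + κ₁)) := by
  classical
  -- the constants of `High`
  have hc : ∃ c : ℕ → ℝ, (∀ R, 0 ≤ c R) ∧ ∀ R : ℕ, 2 ≤ R → R ≤ k →
      ∃ τ : ℝ, 1 / (10 ^ 6 * (R : ℝ) ^ 4) ≤ τ ∧
      ∀ (E Y : ℕ) (L : ℝ), Pool.Agent.Lib.MP_570bef_ntV.OF.Adm k E → 1 ≤ Y → 1 ≤ L →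
        (E : ℝ) ^ (8 * R) ≤ Y → (E : ℝ) ^ k ≤ (Y : ℝ) ^ R → c R * (k : ℝ) ^ om E * L ≤ (Y : ℝ) ^ τ →
        NS k E Y L := by
    have h : ∀ R : ℕ, ∃ c : ℝ, 0 ≤ c ∧ (2 ≤ R → R ≤ k →
        ∃ τ : ℝ, 1 / (10 ^ 6 * (R : ℝ) ^ 4) ≤ τ ∧
        ∀ (E Y : ℕ) (L : ℝ), Pool.Agent.Lib.MP_570bef_ntV.OF.Adm k E → 1 ≤ Y → 1 ≤ L →
          (E : ℝ) ^ (8 * R) ≤ Y → (E : ℝ) ^ k ≤ (Y : ℝ) ^ R →
          c * (k : ℝ) ^ om E * L ≤ (Y : ℝ) ^ τ → NS k E Y L) := by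
      intro R
      by_cases hR : 2 ≤ R ∧ R ≤ k
      · obtain ⟨τ, hτ, C, hC, h⟩ := H R hR.1 hR.2
        exact ⟨C, hC.le, fun _ _ => ⟨τ, hτ, h⟩⟩
      · exact ⟨0, le_rfl, fun h1 h2 => absurd ⟨h1, h2⟩ hR⟩
    choose c hc1 hc2 using h
    exact ⟨c, hc1, hc2⟩
  obtain ⟨c, hc0, hc⟩ := hc
  set Cs : ℝ := ∑ R ∈ range (k + 1), c R with hCs
  have hCs0 : 0 ≤ Cs := sum_nonneg fun R _ => hc0 R
  have hk1 : (1 : ℝ) ≤ k := by exact_mod_cast (by omega : 1 ≤ k)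
  have hk0 : (0 : ℝ) < k := by linarith
  have hkM : (1 : ℝ) ≤ (k : ℝ) ^ M := one_le_pow₀ hk1
  -- logarithms
  have hlo : ∀ᶠ x : ℝ in Filter.atTop, ‖Real.log x‖ ≤
      (1 / (2 * (k : ℝ) ^ M * (k * M + 1))) * ‖x‖ :=
    Real.isLittleO_log_id_atTop.bound (by positivity)
  obtain ⟨x₀, hx₀⟩ := Filter.eventually_atTop.1 hlo
  refine ⟨max (max k ⌈x₀⌉₊) (max ⌈Cs * (k : ℝ) ^ M⌉₊ (max ⌈2 * (k : ℝ) ^ M⌉₊ 1)),
    fun P hP PP hB n m l hnM hm hmn hl hA J hJ D hD => ?_⟩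
  have hP1 : k ≤ P := (le_max_left _ _).trans ((le_max_left _ _).trans hP)
  have hP2 : x₀ ≤ P := (Nat.le_ceil x₀).trans
    (by exact_mod_cast (le_max_right _ _).trans ((le_max_left _ _).trans hP))
  have hP3 : Cs * (k : ℝ) ^ M ≤ P := (Nat.le_ceil _).trans
    (by exact_mod_cast (le_max_left _ _).trans ((le_max_right _ _).trans hP))
  have hP4 : 2 * (k : ℝ) ^ M ≤ P := (Nat.le_ceil _).trans
    (by exact_mod_cast (le_max_left _ _).trans ((le_max_right _ _).trans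
      ((le_max_right _ _).trans hP)))
  have hPr : (1 : ℝ) ≤ P := by nlinarith
  have hP0 : (0 : ℝ) < P := by linarith
  -- the real number `Q = 2 P`
  set Q : ℝ := 2 * P with hQ
  have hQ2 : 2 ≤ Q := by linarith
  have hQ1 : 1 ≤ Q := by linarith
  have hQ0 : 0 < Q := by linarith
  have hPQ : (P : ℝ) ≤ Q := by linarith
  have hnm : ((n - m : ℕ) : ℝ) = (n : ℝ) - m := by
    rw [Nat.cast_sub hmn.le]
  have hY : (((2 * P) ^ (n - m) : ℕ) : ℝ) = Q ^ ((n : ℝ) - m) := by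
    rw [← hnm, Real.rpow_natCast]
    push_cast
    rfl
  have hYpos : 1 ≤ (2 * P) ^ (n - m) := Nat.one_le_pow _ _ (by
    have : (1 : ℝ) ≤ P := hPr
    have : 1 ≤ P := by exact_mod_cast this
    omega)
  have hmM : m ≤ M := by omega
  have hJm : J.card ≤ m := by
    refine (card_le_card hJ).trans ?_
    rw [Nat.card_Ico]
    omega
  obtain ⟨hsq, hom⟩ := PS_sqf hB J D hD
  have hadm := PS_adm hB hP1 J D hD
  have hD1 : 1 ≤ D := hadm.pos
  have hD1r : (1 : ℝ) ≤ D := by exact_mod_cast hD1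
  have homM : om D ≤ M := hom.trans (hJm.trans hmM)
  have hDQ : (D : ℝ) ≤ Q ^ (m : ℝ) := by
    rw [Real.rpow_natCast]
    have h3 := PS_le hB J D hD
    have h4 : (D : ℝ) ≤ ((2 * P : ℕ) : ℝ) ^ J.card := by exact_mod_cast h3
    refine h4.trans ?_
    push_cast
    exact pow_le_pow_right₀ hQ1 hJm
  have hl1 : 0 ≤ 2 * l + κ₁ := by linarith
  have hLQ : (P : ℝ) ^ (2 * l + κ₁) ≤ Q ^ (2 * l + κ₁) := Real.rpow_le_rpow hP0.le hPQ hl1
  have hL1 : 1 ≤ (P : ℝ) ^ (2 * l + κ₁) := Real.one_le_rpow hPr hl1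
  have hL0 : 0 < (P : ℝ) ^ (2 * l + κ₁) := by linarith
  have hm0 : (0 : ℝ) < m := by exact_mod_cast hm
  -- `2 D L ≤ Y` from the exponent inequality
  have hfirst : 1 + (m : ℝ) + (2 * l + κ₁) ≤ (n : ℝ) - m →
      2 * (D : ℝ) * (P : ℝ) ^ (2 * l + κ₁) ≤ (((2 * P) ^ (n - m) : ℕ) : ℝ) := by
    intro hexp
    rw [hY]
    calc 2 * (D : ℝ) * (P : ℝ) ^ (2 * l + κ₁) ≤ Q * Q ^ (m : ℝ) * Q ^ (2 * l + κ₁) := by
          gcongr
      _ = Q ^ (1 + (m : ℝ) + (2 * l + κ₁)) := by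
          rw [Real.rpow_add hQ0 (1 + (m : ℝ)), Real.rpow_add hQ0 1, Real.rpow_one]
      _ ≤ Q ^ ((n : ℝ) - m) := Real.rpow_le_rpow_of_exponent_le hQ1 hexp
  refine ⟨hadm, homM, ?_⟩
  rcases hA with hA | ⟨ρ, hρ, hρk, hkm, hlρ⟩
  · -- first alternative
    obtain ⟨ha, hb⟩ := arith1 (by omega) h2 hA
    refine ⟨hfirst ha, off1 k D _ _ (by omega) hadm hL1 ?_⟩
    rw [hY]
    have hlogQ : Real.log Q ≤ (1 / (2 * (k : ℝ) ^ M * (k * M + 1))) * Q := by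
      have := hx₀ Q (by linarith)
      rwa [Real.norm_of_nonneg (Real.log_nonneg hQ1), Real.norm_of_nonneg hQ0.le] at this
    have hlogD : Real.log D ≤ M * Real.log Q := by
      calc Real.log D ≤ Real.log (Q ^ (m : ℝ)) := Real.log_le_log (by linarith) hDQ
        _ = m * Real.log Q := Real.log_rpow hQ0 _
        _ ≤ M * Real.log Q := by
          have : (m : ℝ) ≤ M := by exact_mod_cast hmM
          exact mul_le_mul_of_nonneg_right this (Real.log_nonneg hQ1)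
    have hlog0 : 0 ≤ Real.log D := Real.log_nonneg hD1r
    have hconst : (k : ℝ) ^ om D * (1 + k * Real.log D) ≤ Q := by
      have h3 : (k : ℝ) ^ om D ≤ (k : ℝ) ^ M := pow_om_le (by omega) homM
      have h4 : 1 + k * Real.log D ≤ 1 + (k * M + 1) * Real.log Q := by
        have h5 : (k : ℝ) * Real.log D ≤ k * (M * Real.log Q) :=
          mul_le_mul_of_nonneg_left hlogD hk0.le
        have h6 : 0 ≤ Real.log Q := Real.log_nonneg hQ1
        nlinarith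
      have h5 : ((k : ℝ) * M + 1) * Real.log Q ≤ Q / (2 * (k : ℝ) ^ M) := by
        have h6 : (0 : ℝ) < (k : ℝ) * M + 1 := by positivity
        calc ((k : ℝ) * M + 1) * Real.log Q
            ≤ ((k : ℝ) * M + 1) * ((1 / (2 * (k : ℝ) ^ M * (k * M + 1))) * Q) :=
              mul_le_mul_of_nonneg_left hlogQ h6.le
          _ = Q / (2 * (k : ℝ) ^ M) := by
              field_simp
      have h7 : (1 : ℝ) ≤ Q / (2 * (k : ℝ) ^ M) := by
        rw [le_div_iff₀ (by positivity)]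
        linarith
      have h8 : 1 + (k : ℝ) * Real.log D ≤ 2 * (Q / (2 * (k : ℝ) ^ M)) := by linarith
      calc (k : ℝ) ^ om D * (1 + k * Real.log D)
          ≤ (k : ℝ) ^ M * (2 * (Q / (2 * (k : ℝ) ^ M))) := by
            refine mul_le_mul h3 h8 (by positivity) (by positivity)
        _ = Q := by field_simp
    have hDpow : (D : ℝ) ^ ((k : ℝ) / 2 + 1) ≤ Q ^ ((m : ℝ) * ((k : ℝ) / 2 + 1)) := by
      rw [Real.rpow_mul hQ0.le]
      exact Real.rpow_le_rpow (by linarith) hDQ (by positivity)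
    calc (k : ℝ) ^ om D * (D : ℝ) ^ ((k : ℝ) / 2 + 1) * (1 + k * Real.log D) *
          (P : ℝ) ^ (2 * l + κ₁)
        = ((k : ℝ) ^ om D * (1 + k * Real.log D)) * (D : ℝ) ^ ((k : ℝ) / 2 + 1) *
          (P : ℝ) ^ (2 * l + κ₁) := by ring
      _ ≤ Q * Q ^ ((m : ℝ) * ((k : ℝ) / 2 + 1)) * Q ^ (2 * l + κ₁) := by
          gcongr
      _ = Q ^ (1 + (m : ℝ) * ((k : ℝ) / 2 + 1) + (2 * l + κ₁)) := by
          rw [Real.rpow_add hQ0 (1 + (m : ℝ) * ((k : ℝ) / 2 + 1)), Real.rpow_add hQ0 1,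
            Real.rpow_one]
      _ ≤ Q ^ ((n : ℝ) - m) := Real.rpow_le_rpow_of_exponent_le hQ1 hb
  · -- second alternative
    have hρ0 : 0 < ρ := by linarith
    have hN0 : 0 < (n : ℝ) - m := by
      have : (m : ℝ) < n := by exact_mod_cast hmn
      linarith
    have hρ3 : 1 ≤ ρ ^ 3 := one_le_pow₀ (by linarith)
    have hρ4 : 0 < ρ ^ 4 := by positivity
    -- `1000 ρ^3 m ≤ n - m`
    have hm3 : 1000 * ρ ^ 3 * m ≤ (n : ℝ) - m := by
      have h3 : 1000 * ρ ^ 4 * m ≤ ρ * ((n : ℝ) - m) :=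
        (mul_le_mul_of_nonneg_right hρk hm0.le).trans hkm
      have h4 : ρ * (1000 * ρ ^ 3 * m) ≤ ρ * ((n : ℝ) - m) := by nlinarith
      exact le_of_mul_le_mul_left h4 hρ0
    have hlκ : l + κ ≤ (1 / 10 ^ 8) * ((n : ℝ) - m) / ρ ^ 4 := by
      rw [le_div_iff₀ hρ4]
      exact hlρ
    have hlκ0 : 0 ≤ l + κ := by linarith
    have hρ41 : 1 ≤ ρ ^ 4 := one_le_pow₀ (by linarith)
    have hlκ1 : l + κ ≤ (1 / 10 ^ 8) * ((n : ℝ) - m) := by nlinarith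
    have hexp1 : 1 + (m : ℝ) + (2 * l + κ₁) ≤ (n : ℝ) - m := by
      have : (1000 : ℝ) * m ≤ (n : ℝ) - m := by nlinarith
      linarith
    refine ⟨hfirst hexp1, ?_⟩
    set R : ℕ := ⌈ρ⌉₊ with hR
    have hR1 : ρ ≤ R := Nat.le_ceil ρ
    have hR2 : (R : ℝ) ≤ ρ + 1 := (Nat.ceil_lt_add_one hρ0.le).le
    have hR3 : 3 * (R : ℝ) ≤ 5 * ρ := by linarith
    have hR4 : 2 ≤ R := by
      have : (1 : ℝ) < R := by linarith
      have : 1 < R := by exact_mod_cast this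
      omega
    have hR5 : R ≤ k := by
      have h3 : (R : ℝ) ≤ k := by
        have : ρ ≤ ρ ^ 4 := by nlinarith
        linarith
      exact_mod_cast h3
    obtain ⟨τ, hτ, hNS⟩ := hc R hR4 hR5
    have hR0 : (0 : ℝ) < R := by linarith
    refine hNS D _ _ hadm hYpos hL1 ?_ ?_ ?_
    · rw [hY]
      calc (D : ℝ) ^ (8 * R) ≤ (Q ^ (m : ℝ)) ^ (8 * R) :=
            pow_le_pow_left₀ (by linarith) hDQ _
        _ = Q ^ ((m : ℝ) * (8 * R : ℕ)) := by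
            rw [Real.rpow_mul hQ0.le]
            exact (Real.rpow_natCast _ _).symm
        _ ≤ Q ^ ((n : ℝ) - m) := by
            refine Real.rpow_le_rpow_of_exponent_le hQ1 ?_
            push_cast
            have h3 : (m : ℝ) * (8 * R) ≤ m * (16 * ρ) := by
              refine mul_le_mul_of_nonneg_left ?_ hm0.le
              linarith
            have h5 : ρ ≤ ρ ^ 3 := by
              have h6 : 1 ≤ ρ ^ 2 := one_le_pow₀ (by linarith)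
              have h7 : ρ * 1 ≤ ρ * ρ ^ 2 := mul_le_mul_of_nonneg_left h6 hρ0.le
              calc ρ = ρ * 1 := by ring
                _ ≤ ρ * ρ ^ 2 := h7
                _ = ρ ^ 3 := by ring
            have h4 : (16 : ℝ) * ρ ≤ 1000 * ρ ^ 3 := by linarith
            have h8 : (m : ℝ) * (16 * ρ) ≤ m * (1000 * ρ ^ 3) :=
              mul_le_mul_of_nonneg_left h4 hm0.le
            linarith
    · rw [hY]
      calc (D : ℝ) ^ k ≤ (Q ^ (m : ℝ)) ^ k := pow_le_pow_left₀ (by linarith) hDQ _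
        _ = Q ^ ((m : ℝ) * k) := by
            rw [Real.rpow_mul hQ0.le]
            exact (Real.rpow_natCast _ _).symm
        _ ≤ Q ^ (((n : ℝ) - m) * R) := by
            refine Real.rpow_le_rpow_of_exponent_le hQ1 ?_
            have : ρ * ((n : ℝ) - m) ≤ R * ((n : ℝ) - m) :=
              mul_le_mul_of_nonneg_right hR1 hN0.le
            linarith
        _ = (Q ^ ((n : ℝ) - m)) ^ R := by
            rw [Real.rpow_mul hQ0.le, Real.rpow_natCast]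
    · rw [hY]
      have hcR : c R ≤ Cs := by
        rw [hCs]
        exact single_le_sum (f := c) (fun R _ => hc0 R) (mem_range.2 (by omega))
      have h3 : c R * (k : ℝ) ^ om D ≤ Q := by
        calc c R * (k : ℝ) ^ om D ≤ Cs * (k : ℝ) ^ M := by
              refine mul_le_mul hcR (pow_om_le (by omega) homM) (by positivity) hCs0
          _ ≤ Q := by linarith
      have hτ1 : 1 + (2 * l + κ₁) ≤ ((n : ℝ) - m) * τ := by
        have h4 : 1 + (2 * l + κ₁) ≤ 2 * (l + κ) := by linarith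
        have h5 : 2 * (l + κ) ≤ 2 * ((1 / 10 ^ 8) * ((n : ℝ) - m) / ρ ^ 4) := by linarith
        have h6 : 2 * (1 / 10 ^ 8 / ρ ^ 4) ≤ 1 / (10 ^ 6 * (R : ℝ) ^ 4) := by
          have h7 : (R : ℝ) ^ 4 ≤ (5 / 3 * ρ) ^ 4 := by
            refine pow_le_pow_left₀ hR0.le ?_ 4
            linarith
          rw [div_div, mul_one_div, div_le_div_iff₀ (by positivity) (by positivity)]
          nlinarith
        calc 1 + (2 * l + κ₁) ≤ 2 * ((1 / 10 ^ 8) * ((n : ℝ) - m) / ρ ^ 4) := by linarith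
          _ = ((n : ℝ) - m) * (2 * (1 / 10 ^ 8 / ρ ^ 4)) := by ring
          _ ≤ ((n : ℝ) - m) * τ := mul_le_mul_of_nonneg_left (h6.trans hτ) hN0.le
      calc c R * (k : ℝ) ^ om D * (P : ℝ) ^ (2 * l + κ₁) ≤ Q * Q ^ (2 * l + κ₁) := by
            gcongr
        _ = Q ^ (1 + (2 * l + κ₁)) := by
            rw [Real.rpow_add hQ0 1, Real.rpow_one]
        _ ≤ Q ^ (((n : ℝ) - m) * τ) := Real.rpow_le_rpow_of_exponent_le hQ1 hτ1
        _ = (Q ^ ((n : ℝ) - m)) ^ τ := by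
            rw [Real.rpow_mul hQ0.le]

end Pool.Agent.Lib.MP_570bef_ntLG
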