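import Pool.Agent.Lib.MP_570bef_ntLV.FDefs

/-!
# LV stream, glue (G1): prime systems

There are at least `P / (10 log P)` primes in `(P, 2 P]` for large `P` (the counting form of the
argument for the postulate of Bertrand), hence for every `M` there are `M` disjoint blocks of primes
of `(P, 2 P]` with at least `P / (C log P)` elements each.
-/

set_option autoImplicit false

namespace Pool.Agent.Lib.MP_570bef_ntLG

open Finset
open Pool.Agent.Lib.MP_570bef_ntLV (Blk)

/-- primes in `(n, 2 n]` -/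
def VP (n : ℕ) : Finset ℕ := (Ioc n (2 * n)).filter Nat.Prime

theorem centralBinom_le (n : ℕ) (hn : 2 < n) :
    n.centralBinom ≤ (2 * n) ^ (VP n).card * ((2 * n) ^ Nat.sqrt (2 * n) * 4 ^ (2 * n / 3)) := by
  have n_pos : 0 < n := by omega
  have n2_pos : 1 ≤ 2 * n := by omega
  set S : Finset ℕ := (Finset.range (2 * n + 1)).filter Nat.Prime with hS
  set f : ℕ → ℕ := fun x => x ^ n.centralBinom.factorization x with hf
  have h0 : ∏ x ∈ S, f x = n.centralBinom := by
    rw [← Nat.prod_pow_factorization_centralBinom n]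
    refine Finset.prod_filter_of_ne fun p _ h => ?_
    by_contra hp
    apply h
    change p ^ n.centralBinom.factorization p = 1
    rw [Nat.factorization_eq_zero_of_not_prime n.centralBinom hp, pow_zero]
  have hle : ∀ p, f p ≤ 2 * n := fun p =>
    Nat.pow_factorization_choose_le (mul_pos two_pos n_pos)
  rw [← h0, ← Finset.prod_filter_mul_prod_filter_not S (fun p => n < p)]
  refine Nat.mul_le_mul ?_ ?_
  · have h1 : S.filter (fun p => n < p) = VP n := by
      ext p
      simp only [hS, VP, mem_filter, mem_range, mem_Ioc]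
      constructor
      · rintro ⟨⟨h1, h2⟩, h3⟩
        exact ⟨⟨h3, by omega⟩, h2⟩
      · rintro ⟨⟨h1, h2⟩, h3⟩
        exact ⟨⟨by omega, h3⟩, h1⟩
    rw [h1]
    refine (Finset.prod_le_prod' fun p _ => hle p).trans ?_
    rw [Finset.prod_const]
  · rw [← Finset.prod_filter_mul_prod_filter_not (S.filter (fun p => ¬ n < p))
      (fun p => p ≤ Nat.sqrt (2 * n))]
    refine Nat.mul_le_mul ?_ ?_
    · refine (Finset.prod_le_prod' fun p _ => hle p).trans ?_
      rw [Finset.prod_const]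
      refine pow_right_mono₀ n2_pos ?_
      have : (Finset.Icc 1 (Nat.sqrt (2 * n))).card = Nat.sqrt (2 * n) := by
        rw [Nat.card_Icc, Nat.add_sub_cancel]
      refine (Finset.card_le_card fun x hx => ?_).trans this.le
      obtain ⟨h1, h2⟩ := Finset.mem_filter.1 hx
      obtain ⟨h3, _⟩ := Finset.mem_filter.1 h1
      exact Finset.mem_Icc.mpr ⟨(Finset.mem_filter.1 h3).2.one_lt.le, h2⟩
    · refine le_trans ?_ (primorial_le_four_pow (2 * n / 3))
      rw [primorial]
      set T := (S.filter (fun p => ¬ n < p)).filter (fun p => ¬ p ≤ Nat.sqrt (2 * n)) with hT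
      have h1 : ∏ p ∈ T, f p = ∏ p ∈ T.filter (fun p => p < 2 * n / 3 + 1), f p := by
        symm
        refine Finset.prod_filter_of_ne fun p hp h => ?_
        by_contra hp2
        apply h
        obtain ⟨h2, h3⟩ := Finset.mem_filter.1 hp
        obtain ⟨h4, h5⟩ := Finset.mem_filter.1 h2
        have h6 : 2 * n < 3 * p := by omega
        change p ^ n.centralBinom.factorization p = 1
        rw [Nat.factorization_centralBinom_of_two_mul_self_lt_three_mul hn (by omega) h6, pow_zero]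
      rw [h1]
      refine (Finset.prod_le_prod' fun p hp => (?_ : f p ≤ p)).trans ?_
      · obtain ⟨h1, _⟩ := Finset.mem_filter.1 hp
        obtain ⟨h2, h3⟩ := Finset.mem_filter.1 h1
        obtain ⟨h4, h5⟩ := Finset.mem_filter.1 h2
        have hpp : p.Prime := (Finset.mem_filter.1 h4).2
        refine (pow_right_mono₀ hpp.one_lt.le ?_).trans (pow_one p).le
        exact Nat.factorization_choose_le_one (Nat.sqrt_lt'.mp <| not_le.1 h3)
      · refine Finset.prod_le_prod_of_subset_of_one_le' ?_ ?_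
        · intro p hp
          obtain ⟨h1, h2⟩ := Finset.mem_filter.1 hp
          obtain ⟨h3, _⟩ := Finset.mem_filter.1 h1
          obtain ⟨h4, _⟩ := Finset.mem_filter.1 h3
          exact Finset.mem_filter.2 ⟨Finset.mem_range.2 h2, (Finset.mem_filter.1 h4).2⟩
        · intro p hp _
          exact (Finset.mem_filter.1 hp).2.one_lt.le

/-- Bertrand with the right number of primes -/
theorem card_VP : ∃ n0 : ℕ, 2 ≤ n0 ∧ ∀ n ≥ n0, (n : ℝ) / (10 * Real.log n) ≤ (VP n).card := by
  have hlo : ∀ᶠ x : ℝ in Filter.atTop, ‖Real.log x‖ ≤ (1 / 40) * ‖x ^ (1 / 2 : ℝ)‖ :=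
    (isLittleO_log_rpow_atTop (by norm_num : (0 : ℝ) < 1 / 2)).bound (by norm_num)
  obtain ⟨x₀, hx₀⟩ := Filter.eventually_atTop.1 hlo
  refine ⟨max 20 ⌈x₀⌉₊, (by norm_num : 2 ≤ 20).trans (le_max_left _ _), fun n hn => ?_⟩
  have hn20 : 20 ≤ n := (le_max_left _ _).trans hn
  have hnx : x₀ ≤ n := (Nat.le_ceil x₀).trans (by exact_mod_cast (le_max_right _ _).trans hn)
  have hnr : (20 : ℝ) ≤ n := by exact_mod_cast hn20
  have hn0 : (0 : ℝ) < n := by linarith
  have hlogn : 0 < Real.log n := Real.log_pos (by linarith)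
  have h2n : (0 : ℝ) < 2 * n := by linarith
  have hl1 := hx₀ (2 * n) (by linarith)
  rw [Real.norm_of_nonneg (Real.log_pos (by linarith)).le,
    Real.norm_of_nonneg (by positivity), ← Real.sqrt_eq_rpow] at hl1
  have hsq : Real.sqrt (2 * n) * Real.sqrt (2 * n) = 2 * n := Real.mul_self_sqrt h2n.le
  have hsq1 : 1 ≤ Real.sqrt (2 * n) := Real.one_le_sqrt.2 (by linarith)
  have hlog2n : 0 < Real.log (2 * n) := Real.log_pos (by linarith)
  have h1 := Nat.four_pow_lt_mul_centralBinom n (by omega)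
  have h2 := centralBinom_le n (by omega)
  have h3 : (4 : ℕ) ^ n ≤ n * ((2 * n) ^ (VP n).card *
      ((2 * n) ^ Nat.sqrt (2 * n) * 4 ^ (2 * n / 3))) := h1.le.trans (Nat.mul_le_mul_left n h2)
  have h4 : ((4 : ℕ) ^ n : ℝ) ≤ n * ((2 * n) ^ (VP n).card *
      ((2 * n) ^ Nat.sqrt (2 * n) * 4 ^ (2 * n / 3 : ℕ))) := by exact_mod_cast h3
  have h5 := Real.log_le_log (by positivity) h4
  rw [Real.log_mul (by positivity) (by positivity), Real.log_mul (by positivity) (by positivity),
    Real.log_mul (by positivity) (by positivity), Real.log_pow, Real.log_pow, Real.log_pow,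
    Real.log_pow] at h5
  have h6 : ((2 * n / 3 : ℕ) : ℝ) ≤ 2 * n / 3 := by
    have := @Nat.cast_div_le ℝ _ _ _ (2 * n) 3
    push_cast at this
    exact this
  have h7 : ((Nat.sqrt (2 * n) : ℕ) : ℝ) ≤ Real.sqrt (2 * n) := by
    have := @Real.nat_sqrt_le_real_sqrt (2 * n)
    push_cast at this
    exact this
  have hlog4 : Real.log ((4 : ℕ) : ℝ) = 2 * Real.log 2 := by
    rw [show ((4 : ℕ) : ℝ) = 2 ^ 2 by norm_num, Real.log_pow]
    norm_num
  have hlog4' : Real.log (4 : ℝ) = 2 * Real.log 2 := by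
    rw [show (4 : ℝ) = 2 ^ 2 by norm_num, Real.log_pow]
    norm_num
  rw [hlog4, hlog4'] at h5
  have hl2 := Real.log_two_gt_d9
  have hl2' := Real.log_two_lt_d9
  have hln2 : Real.log n ≤ Real.log (2 * n) := Real.log_le_log hn0 (by linarith)
  have h8 : ((Nat.sqrt (2 * n) : ℕ) : ℝ) * Real.log (2 * n) ≤ (2 * n) / 40 := by
    calc ((Nat.sqrt (2 * n) : ℕ) : ℝ) * Real.log (2 * n)
        ≤ Real.sqrt (2 * n) * (1 / 40 * Real.sqrt (2 * n)) := by
          exact mul_le_mul h7 hl1 hlog2n.le (Real.sqrt_nonneg _)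
      _ = (2 * n) / 40 := by
          rw [show Real.sqrt (2 * n) * (1 / 40 * Real.sqrt (2 * n)) =
            (Real.sqrt (2 * n) * Real.sqrt (2 * n)) / 40 by ring, hsq]
  have h9 : Real.log n ≤ (2 * n) / 40 := by
    refine hln2.trans (hl1.trans ?_)
    nlinarith
  have h10 : ((2 * n / 3 : ℕ) : ℝ) * (2 * Real.log 2) ≤ (2 * n / 3) * (2 * Real.log 2) :=
    mul_le_mul_of_nonneg_right h6 (by linarith)
  have h11 : (n : ℝ) / 3 ≤ (VP n).card * Real.log (2 * n) := by
    nlinarith
  have h12 : Real.log (2 * n) ≤ 2 * Real.log n := by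
    rw [Real.log_mul (by norm_num) (by linarith)]
    have : Real.log 2 ≤ Real.log n := Real.log_le_log (by norm_num) (by linarith)
    linarith
  rw [div_le_iff₀ (by positivity)]
  have h13 : (0 : ℝ) ≤ (VP n).card := Nat.cast_nonneg _
  have h14 : ((VP n).card : ℝ) * Real.log (2 * n) ≤ (VP n).card * (2 * Real.log n) :=
    mul_le_mul_of_nonneg_left h12 h13
  nlinarith

/-- disjoint subsets of given size -/
theorem split_blocks (t : ℕ) : ∀ (M : ℕ) (S : Finset ℕ), M * t ≤ S.card →
    ∃ PP : ℕ → Finset ℕ, (∀ i, PP i ⊆ S) ∧ (∀ i < M, (PP i).card = t) ∧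
      (∀ i j, i ≠ j → Disjoint (PP i) (PP j)) ∧ ∀ i, M ≤ i → PP i = ∅ := by
  intro M
  induction M with
  | zero =>
    intro S _
    refine ⟨fun _ => ∅, fun _ => empty_subset _, fun i hi => ?_, fun _ _ _ => ?_, fun _ _ => rfl⟩
    · omega
    · exact disjoint_empty_left _
  | succ M ih =>
    intro S hS
    have h1 : t ≤ S.card := by nlinarith
    obtain ⟨T, hT, hTc⟩ := Finset.exists_subset_card_eq h1
    have h2 : M * t ≤ (S \ T).card := by
      rw [card_sdiff_of_subset hT, hTc]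
      have : (M + 1) * t = M * t + t := by ring
      omega
    obtain ⟨PP, hs, hc, hd, he⟩ := ih (S \ T) h2
    refine ⟨fun i => if i = M then T else PP i, fun i => ?_, fun i hi => ?_, fun i j hij => ?_,
      fun i hi => ?_⟩
    · dsimp only
      split_ifs
      · exact hT
      · exact (hs i).trans sdiff_subset
    · dsimp only
      split_ifs with h
      · exact hTc
      · exact hc i (by omega)
    · dsimp only
      split_ifs with h h' h'
      · omega
      · exact (disjoint_of_subset_left (hs j) sdiff_disjoint).symm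
      · exact disjoint_of_subset_left (hs i) sdiff_disjoint
      · exact hd i j hij
    · dsimp only
      rw [if_neg (by omega)]
      exact he i (by omega)

/-- **(G1)** prime systems -/
theorem exists_blk (M : ℕ) : ∃ C : ℝ, 1 ≤ C ∧ ∃ P0 : ℕ, 2 ≤ P0 ∧ ∀ P ≥ P0,
    ∃ PP : ℕ → Finset ℕ, Blk PP P ∧ (∀ i < M, (P : ℝ) / (C * Real.log P) ≤ (PP i).card) ∧
      ∀ i, M ≤ i → PP i = ∅ := by
  obtain ⟨n0, hn02, hn0⟩ := card_VP
  have hlo : ∀ᶠ x : ℝ in Filter.atTop, ‖Real.log x‖ ≤ (1 / (20 * ((M : ℝ) + 1))) * ‖x‖ :=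
    Real.isLittleO_log_id_atTop.bound (by positivity)
  obtain ⟨x₀, hx₀⟩ := Filter.eventually_atTop.1 hlo
  refine ⟨20 * ((M : ℝ) + 1), by nlinarith [(Nat.cast_nonneg M : (0 : ℝ) ≤ M)],
    max n0 ⌈x₀⌉₊, hn02.trans (le_max_left _ _), fun P hP => ?_⟩
  have hPn : n0 ≤ P := (le_max_left _ _).trans hP
  have hPx : x₀ ≤ P := (Nat.le_ceil x₀).trans (by exact_mod_cast (le_max_right _ _).trans hP)
  have hP2 : (2 : ℝ) ≤ P := by exact_mod_cast hn02.trans hPn
  have hP0 : (0 : ℝ) < P := by linarith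
  have hlog : 0 < Real.log P := Real.log_pos (by linarith)
  have h1 := hn0 P hPn
  have h2 := hx₀ P hPx
  rw [Real.norm_of_nonneg hlog.le, Real.norm_of_nonneg hP0.le] at h2
  have hM0 : (0 : ℝ) ≤ M := Nat.cast_nonneg M
  have hM : (0 : ℝ) < (M : ℝ) + 1 := by positivity
  set t : ℕ := ⌈(P : ℝ) / (20 * ((M : ℝ) + 1) * Real.log P)⌉₊ with ht
  have ht1 : (P : ℝ) / (20 * ((M : ℝ) + 1) * Real.log P) ≤ t := Nat.le_ceil _
  have h3 : (1 : ℝ) ≤ (P : ℝ) / (20 * ((M : ℝ) + 1) * Real.log P) := by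
    rw [le_div_iff₀ (by positivity)]
    have : (20 * ((M : ℝ) + 1)) * Real.log P ≤ (20 * ((M : ℝ) + 1)) *
        (1 / (20 * ((M : ℝ) + 1)) * P) := mul_le_mul_of_nonneg_left h2 (by positivity)
    rw [show (20 * ((M : ℝ) + 1)) * (1 / (20 * ((M : ℝ) + 1)) * P) = (P : ℝ) by field_simp] at this
    linarith
  have ht2 : (t : ℝ) ≤ 2 * ((P : ℝ) / (20 * ((M : ℝ) + 1) * Real.log P)) := by
    have := (Nat.ceil_lt_add_one (by positivity : (0 : ℝ) ≤
      (P : ℝ) / (20 * ((M : ℝ) + 1) * Real.log P))).le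
    linarith
  have h4 : M * t ≤ (VP P).card := by
    have h5 : ((M : ℝ)) * t ≤ (VP P).card := by
      refine le_trans ?_ h1
      calc (M : ℝ) * t ≤ (M + 1) * (2 * ((P : ℝ) / (20 * ((M : ℝ) + 1) * Real.log P))) := by
            refine mul_le_mul (by linarith) ht2 (Nat.cast_nonneg _) hM.le
        _ = (P : ℝ) / (10 * Real.log P) := by
            field_simp
            norm_num
    exact_mod_cast h5
  obtain ⟨PP, hs, hc, hd, he⟩ := split_blocks t M (VP P) h4
  refine ⟨PP, ⟨fun i p hp => ?_, hd, fun i p hp => ?_, fun i p hp => ?_⟩, fun i hi => ?_, he⟩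
  · exact (mem_filter.1 (hs i hp)).2
  · exact (mem_Ioc.1 (mem_filter.1 (hs i hp)).1).1
  · exact (mem_Ioc.1 (mem_filter.1 (hs i hp)).1).2
  · rw [hc i hi]
    exact ht1

end Pool.Agent.Lib.MP_570bef_ntLG
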