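import Pool.Agent.Lib.MP_570bef_ntLG.Sys
import Pool.Agent.Lib.MP_570bef_ntLV.BAs

/-!
# LV stream: the mean value over the minor arcs, unconditionally
-/

set_option autoImplicit false

namespace Pool.Agent.Lib.MP_570bef_ntLG

open Pool.Agent.Lib.MP_570bef_ntLC (MinorMV)

theorem minorMV_all (k : ℕ) (hk : 3 ≤ k) : MinorMV k (39 * k) :=
  LVA.minorMV_final k hk 4 (1 / 1000) (by norm_num) (by norm_num) (by norm_num)
    (fun M _ => hsys M) (fun M C _ hC => hstep k hk M C hC)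
    (fun M C hM hMe hC =>
      let ⟨P0, h⟩ := Pool.Agent.Lib.MP_570bef_ntLV.pointwise k hk (1 / 1000) (by norm_num) M C hM hMe hC
      ⟨P0, fun P hP PP hPP hlev α hα => h P hP PP hPP.1 hPP.2 hlev α hα⟩)

end Pool.Agent.Lib.MP_570bef_ntLG
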