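import Pool.Agent.Lib.MP_570bef_ntLG.Pr
import Pool.Agent.Lib.MP_570bef_ntLG.Ns
import Pool.Agent.Lib.MP_570bef_ntLV.FNu
import Pool.Agent.Lib.MP_570bef_ntLV.Hk
import Pool.Agent.Lib.MP_570bef_ntLV.A3

/-!
# LV stream, glue (G3): prime systems and the step inequality in the form of block A
-/

set_option autoImplicit false

namespace Pool.Agent.Lib.MP_570bef_ntLG

open Finset
open Pool.Agent.Lib.MP_570bef_ntLV (Blk PS lev)
open Pool.Agent.Lib.MP_570bef_ntLM (Step)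

/-- prime systems exist -/
theorem hsys (M : ℕ) : ∃ C : ℝ, 0 < C ∧ ∃ P0 : ℕ, ∀ P ≥ P0,
    ∃ PP : ℕ → Finset ℕ, LVA.Many M C P PP := by
  obtain ⟨C, hC, P0, _, h⟩ := exists_blk M
  refine ⟨C, by linarith, P0, fun P hP => ?_⟩
  obtain ⟨PP, hB, hc, -⟩ := h P hP
  exact ⟨PP, hB, hc⟩

/-- in an admissible triple the level is at most the number of blocks -/
theorem level_le {k n m M : ℕ} {κ l : ℝ} (hκ : 0 ≤ κ) (hn : n ≤ M) (hl : 0 ≤ l) (hmn : m < n)
    (h : Pool.Agent.Lib.MP_570bef_ntLM.Adm k κ n m l) : l ≤ M := by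
  have hnM : (n : ℝ) ≤ M := by exact_mod_cast hn
  have hm0 : (0 : ℝ) ≤ m := Nat.cast_nonneg _
  have hk0 : (0 : ℝ) ≤ k := Nat.cast_nonneg _
  have hmn' : (m : ℝ) < n := by exact_mod_cast hmn
  rcases h with h | ⟨ρ, hρ, _, _, h⟩
  · have h1 : 0 ≤ ((k : ℝ) + 2) * m := by positivity
    linarith
  · have hρ1 : 1 ≤ ρ ^ 4 := one_le_pow₀ (by linarith)
    have h1 : (l + κ) * 1 ≤ (l + κ) * ρ ^ 4 := mul_le_mul_of_nonneg_left hρ1 (by linarith)
    have h2 : (1 / 10 ^ 8 : ℝ) * ((n : ℝ) - m) ≤ (n : ℝ) - m := by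
      have : (0 : ℝ) ≤ (n : ℝ) - m := by linarith
      nlinarith
    linarith

/-- **the step inequality** with `κ = 4` -/
theorem hstep (k : ℕ) (hk : 3 ≤ k) (M : ℕ) (C : ℝ) (hC : 0 < C) :
    ∃ P0 : ℕ, ∀ P ≥ P0, ∀ PP : ℕ → Finset ℕ, LVA.Many M C P PP →
      Step k M 4 P (LVA.nu k PP P) := by
  obtain ⟨P1, h1⟩ := glue_ns k M hk 1 4 (by norm_num) (by norm_num)
    (Pool.Agent.Lib.MP_570bef_ntLV.H.high_all k (by omega))
  obtain ⟨P2, h2⟩ := Pool.Agent.Lib.MP_570bef_ntLV.step_nu k M (by omega) (max C 1)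
    (le_max_right _ _) 1 (by norm_num)
  refine ⟨max (max P1 P2) 2, fun P hP PP hPP => ?_⟩
  have hP1 : P1 ≤ P := (le_max_left _ _).trans ((le_max_left _ _).trans hP)
  have hP2 : P2 ≤ P := (le_max_right _ _).trans ((le_max_left _ _).trans hP)
  have hP3 : 2 ≤ P := (le_max_right _ _).trans hP
  have hPr : (2 : ℝ) ≤ P := by exact_mod_cast hP3
  have hlog : 0 < Real.log P := Real.log_pos (by linarith)
  obtain ⟨hB, hcard⟩ := hPP
  have hcard' : ∀ i < M, (P : ℝ) / (max C 1 * Real.log P) ≤ (PP i).card := by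
    intro i hi
    refine le_trans ?_ (hcard i hi)
    refine div_le_div_of_nonneg_left (by linarith) (by positivity) ?_
    exact mul_le_mul_of_nonneg_right (le_max_left _ _) hlog.le
  intro n m l hn hm hmn hl hA
  have hlM := level_le (by norm_num) hn hl hmn hA
  obtain ⟨j, i, hj, hi0, hi, hle⟩ := h2 P hP2 PP hB hcard' n m l hn hm hmn hl hlM
    (fun J hJ D hD => by
      obtain ⟨_, _, h3, h4⟩ := h1 P hP1 PP hB n m l hn hm hmn hl hA J hJ D hD
      refine ⟨?_, h4⟩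
      have h5 : (((2 * P) ^ (n - m) : ℕ) : ℝ) = ((2 * P : ℕ) : ℝ) ^ (n - m) := by
        push_cast
        rfl
      rw [← h5]
      exact h3)
  refine ⟨j, i, hj, hi0, by linarith, ?_⟩
  have h6 : 0 ≤ LVA.nu k PP P (n - m) i := LVA.nu_nonneg _ _ _ _ _
  have h7 : LVA.nu k PP P n l ≤
      (P : ℝ) ^ (1 + ((k : ℝ) + 1) * j + (l - j - i) + 4 * (l - j)) *
        LVA.nu k PP P (n - m) i := hle
  refine h7.trans (mul_le_mul_of_nonneg_right ?_ h6)
  exact Real.rpow_le_rpow_of_exponent_le (by linarith) (by linarith)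

end Pool.Agent.Lib.MP_570bef_ntLG
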